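import Pool.Agent.helper35.DR.SpecZ

/-!
# Project dr:ZCO (MP_baa4d7_al): complement pairs for the cover
-/

set_option autoImplicit false

namespace Pool.Agent.DR

open Pool.Agent.helper58.DC Pool.Agent.DI

theorem ZCO_hom (Γ : Type) [Group Γ] [Finite Γ] (R : Subgroup Γ)
    (hR : ∀ x ∈ R, ∀ y ∈ R, x * y = y * x) :
    Nat.card {l : R → ℂˣ // ∀ x y, l (x * y) = l x * l y} = Nat.card R := by
  letI : CommGroup R :=
    { (inferInstance : Group R) with mul_comm := fun a b => Subtype.ext (hR a a.2 b b.2) }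
  haveI : NeZero (Monoid.exponent R) := ⟨Monoid.exponent_ne_zero_of_finite⟩
  have h1 : Nat.card (R →* ℂˣ) = Nat.card R :=
    CommGroup.card_monoidHom_of_hasEnoughRootsOfUnity R ℂ
  rw [← h1]
  exact Nat.card_congr ⟨fun l => MonoidHom.mk' l.1 l.2, fun f => ⟨f, map_mul f⟩,
    fun l => rfl, fun f => rfl⟩

theorem ZCO_eq (hB2 : B2_stmt) (Γ : Type) [Group Γ] [Finite Γ] (K : Subgroup Γ) (θ θ' : Γ → ℂ)
    (hθ : θ ∈ IrrOn K) (hθ' : θ' ∈ IrrOn K) (e : ℕ) (h : ∀ x ∈ K, θ' x = e * θ x) : θ' = θ := by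
  classical
  obtain ⟨-, hB⟩ := hB2 Γ K
  obtain ⟨⟨n, hn, hn1, -⟩, -, -, hoff', horth'⟩ := hB θ' hθ'
  obtain ⟨-, -, -, hoff, horth⟩ := hB θ hθ
  by_contra hne
  have h1 := horth' θ hθ
  rw [if_neg hne] at h1
  have h2 := horth θ hθ
  rw [if_pos rfl] at h2
  have h3 : ∀ g, θ' g * θ g⁻¹ = (e : ℂ) * (θ g * θ g⁻¹) := by
    intro g
    by_cases hg : g ∈ K
    · rw [h g hg]; ring
    · rw [hoff' g hg, hoff g hg]; ring
  rw [finsum_congr h3] at h1
  haveI := Fintype.ofFinite Γ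
  rw [finsum_eq_sum_of_fintype] at h1 h2
  rw [← Finset.mul_sum, h2] at h1
  have hK : (Nat.card K : ℂ) ≠ 0 := by
    have : Nat.card K ≠ 0 := Nat.card_pos.ne'
    exact_mod_cast this
  have he : (e : ℂ) = 0 := by
    rcases mul_eq_zero.1 h1 with h | h
    · exact h
    · exact absurd h hK
  have h4 := h 1 K.one_mem
  rw [he, zero_mul, hn1] at h4
  have : n = 0 := by exact_mod_cast h4
  omega

theorem ZCO_count (hRDP : RDP_stmt) (hB2 : B2_stmt) (Γ : Type) [Group Γ] [Finite Γ] (p : ℕ)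
    (R N' S : Subgroup Γ) (hc : ∀ x ∈ R, ∀ y, x * y = y * x) (hd : R ⊓ N' = ⊥)
    (hS : ∀ s ∈ S, ∀ y ∈ N', s⁻¹ * y * s ∈ N') (θ : Γ → ℂ) (hθ : θ ∈ IrrOn N')
    (hinv : ∀ s ∈ S, funMap (MulAut.conj s) θ = θ) (D : ℤ) :
    (Defect p (R ⊔ N') θ D → inn p (R ⊔ N') S N' θ D = Nat.card R) ∧
    (¬ Defect p (R ⊔ N') θ D → inn p (R ⊔ N') S N' θ D = 0) := by
  classical
  obtain ⟨hA, hB, hC⟩ := hRDP Γ R N' (fun x hx y _ => hc x hx y) (fun x hx y _ => hc x hx y) hd
  haveI hRn : R.Normal := by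
    constructor
    intro r hr g
    have : g * r * g⁻¹ = r := by
      rw [← hc r hr g, mul_assoc, mul_inv_cancel, mul_one]
    rw [this]
    exact hr
  have hmem : ∀ g, g ∈ R ⊔ N' ↔ ∃ z ∈ R, ∃ h ∈ N', z * h = g := by
    intro g
    exact Subgroup.mem_sup_of_normal_left
  have hconj : ∀ (s : Γ) (φ : Γ → ℂ) (g : Γ), funMap (MulAut.conj s) φ g = φ (s⁻¹ * g * s) := by
    intro s φ g
    simp [funMap]
  -- value at one
  have hval : ∀ φ : Γ → ℂ, ∀ l : R → ℂˣ, (∀ x y, l (x * y) = l x * l y) →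
      (∀ (x : R), ∀ y ∈ N', φ (x * y) = l x * θ y) → ∀ y ∈ N', φ y = θ y := by
    intro φ l hl hφ y hy
    have h1 : l 1 = 1 := by
      have := hl 1 1
      rw [mul_one] at this
      exact (mul_eq_left.1 this.symm)
    have h2 := hφ 1 y hy
    rw [h1] at h2
    simpa using h2
  have hdef : ∀ φ : Γ → ℂ, φ 1 = θ 1 → (Defect p (R ⊔ N') φ D ↔ Defect p (R ⊔ N') θ D) := by
    intro φ h
    unfold Defect
    rw [h]
  -- structure of the counted characters
  have hstr : ∀ φ : Γ → ℂ, φ ∈ IrrOn (R ⊔ N') → (∃ e : ℕ, ∀ x ∈ N', φ x = e * θ x) →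
      ∃ l : R → ℂˣ, (∀ x y, l (x * y) = l x * l y) ∧ ∀ (x : R), ∀ y ∈ N', φ (x * y) = l x * θ y := by
    rintro φ hφ ⟨e, he⟩
    obtain ⟨l, hl, θ', hθ', hφ'⟩ := hB φ hφ
    have h1 : l 1 = 1 := by
      have := hl 1 1
      rw [mul_one] at this
      exact (mul_eq_left.1 this.symm)
    have h2 : ∀ y ∈ N', θ' y = e * θ y := by
      intro y hy
      have h2 := hφ' 1 y hy
      rw [h1] at h2
      rw [← he y hy]
      simpa using h2.symm
    have h3 := ZCO_eq hB2 Γ N' θ θ' hθ hθ' e h2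
    exact ⟨l, hl, fun x y hy => by rw [hφ' x y hy, h3]⟩
  constructor
  · intro hD
    rw [← ZCO_hom Γ R (fun x hx y _ => hc x hx y)]
    unfold inn
    symm
    choose F hF1 hF2 using fun (l : {l : R → ℂˣ // ∀ x y, l (x * y) = l x * l y}) => hA l.1 l.2 θ hθ
    have hF3 : ∀ l, ∀ y ∈ N', F l y = θ y := fun l => hval (F l) l.1 l.2 (hF2 l)
    have hFinv : ∀ l, ∀ s ∈ S, funMap (MulAut.conj s) (F l) = F l := by
      intro l s hs
      funext g
      rw [hconj]
      by_cases hg : g ∈ R ⊔ N'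
      · obtain ⟨z, hz, h, hh, rfl⟩ := (hmem g).1 hg
        have h1 : s⁻¹ * (z * h) * s = z * (s⁻¹ * h * s) := by
          rw [← mul_assoc s⁻¹ z h, ← hc z hz s⁻¹]
          simp only [mul_assoc]
        rw [h1]
        have h2 := hF2 l ⟨z, hz⟩ _ (hS s hs h hh)
        have h3 := hF2 l ⟨z, hz⟩ _ hh
        simp only at h2 h3
        rw [h2, h3, ← hconj s θ h, hinv s hs]
      · have hg' : s⁻¹ * g * s ∉ R ⊔ N' := by
          intro hcon
          apply hg
          obtain ⟨z, hz, h, hh, he⟩ := (hmem _).1 hcon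
          have h4 := hS s⁻¹ (S.inv_mem hs) h hh
          rw [inv_inv] at h4
          refine (hmem g).2 ⟨z, hz, _, h4, ?_⟩
          have h5 : g = s * (s⁻¹ * g * s) * s⁻¹ := by group
          rw [h5, ← he, ← mul_assoc s z h, ← hc z hz s]
          simp only [mul_assoc]
        rw [(hF1 l).1 g hg, (hF1 l).1 _ hg']
    refine Nat.card_eq_of_bijective (fun l => ⟨F l, hF1 l, ⟨1, fun x hx => by
      rw [hF3 l x hx, Nat.cast_one, one_mul]⟩, hFinv l, (hdef (F l) (hF3 l 1 N'.one_mem)).2 hD⟩) ⟨?_, ?_⟩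
    · intro l l' hll
      have h1 : F l = F l' := congrArg Subtype.val hll
      apply Subtype.ext
      refine (hC l.1 l'.1 l.2 l'.2 θ hθ θ hθ ?_).1
      intro x y hy
      rw [← hF2 l x y hy, ← hF2 l' x y hy, h1]
    · rintro ⟨φ, hφ, he, hφs, hφD⟩
      obtain ⟨l, hl, hl2⟩ := hstr φ hφ he
      refine ⟨⟨l, hl⟩, ?_⟩
      apply Subtype.ext
      funext g
      by_cases hg : g ∈ R ⊔ N'
      · obtain ⟨z, hz, h, hh, rfl⟩ := (hmem g).1 hg
        have h1 := hF2 ⟨l, hl⟩ ⟨z, hz⟩ h hh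
        have h2 := hl2 ⟨z, hz⟩ h hh
        simp only at h1 h2 ⊢
        rw [h1, h2]
      · change F _ g = φ g
        rw [(hF1 _).1 g hg, hφ.1 g hg]
  · intro hD
    unfold inn
    rw [Nat.card_eq_zero]
    left
    constructor
    rintro ⟨φ, hφ, he, hφs, hφD⟩
    obtain ⟨l, hl, hl2⟩ := hstr φ hφ he
    exact hD ((hdef φ (hval φ l hl hl2 1 N'.one_mem)).1 hφD)

open Classical in
theorem ZCO (hZFN : ZFN_stmt) (hZST : ZST_stmt) (hRST : RST_stmt) (hRDP : RDP_stmt)
    (hECD : ECD_stmt) (hB2 : B2_stmt) (hB13 : B13_stmt) : ZCO_stmt := by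
  intro G E A _ _ _ _ _ _ X p _ n hn hp N C hC hCne ψ hψ hVN D
  obtain ⟨hfB, hfZ, hfC, hsur, hcard, hcen, -, -, -, hZ⟩ := hZFN A n hn
  obtain ⟨hfFC, hsurE, hcardE, hcenE, hdisj⟩ := hZ G E X
  haveI := hfZ
  haveI := hfC
  haveI := hfFC
  obtain ⟨hst, hstm, -⟩ := hZST G E A X n C ψ
  obtain ⟨hker, -, hR⟩ := hRST G (FC X n) (Cv A n) (XC X n) C hC hCne
  obtain ⟨-, hH, hinv⟩ := hR ψ hψ
  obtain ⟨hB1, hBirr, -, -, -, -⟩ := hB13 G (FC X n) p (XC X n).inc (XC X n).inc_injective (nrm C)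
  set S : Subgroup (FC X n) := (XC X n).stab C ψ with hSdef
  set H : Subgroup (FC X n) := S ⊓ (XC X n).proj.ker with hHdef
  -- the group `L`
  have hL : S ⊓ (N.comap (prC A n)).comap (XC X n).proj = (fcE X n).ker ⊔ H := by
    apply le_antisymm
    · intro x hx
      obtain ⟨hxS, hxN⟩ := Subgroup.mem_inf.1 hx
      have hx1 : fcE X n x ∈ X.stab C ψ := by
        rw [hst] at hxS
        exact hxS
      have hxa : X.proj (fcE X n x) = prC A n ((XC X n).proj x) := x.2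
      have hxN' : prC A n ((XC X n).proj x) ∈ N := hxN
      have h1 : X.proj (fcE X n x) ∈ (X.stab C ψ).map X.proj ⊓ N := by
        refine ⟨⟨_, hx1, rfl⟩, ?_⟩
        rw [hxa]
        exact hxN'
      rw [hVN, Subgroup.mem_bot] at h1
      obtain ⟨g, hg⟩ := (X.exact _).1 h1
      -- `x = (inc g) * z`
      have hz : ((XC X n).inc g)⁻¹ * x ∈ (fcE X n).ker := by
        rw [MonoidHom.mem_ker, map_mul, map_inv]
        have : fcE X n ((XC X n).inc g) = X.inc g := rfl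
        rw [this, hg, inv_mul_cancel]
      have hzS : ((XC X n).inc g)⁻¹ * x ∈ S := by
        rw [hst]
        change fcE X n _ ∈ X.stab C ψ
        rw [MonoidHom.mem_ker.1 hz]
        exact (X.stab C ψ).one_mem
      have hgS : (XC X n).inc g ∈ S := by
        have h2 := S.mul_mem hxS (S.inv_mem hzS)
        have h3 : x * (((XC X n).inc g)⁻¹ * x)⁻¹ = (XC X n).inc g := by group
        rwa [h3] at h2
      have hgH : (XC X n).inc g ∈ H := by
        refine ⟨hgS, ?_⟩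
        rw [hker]
        exact ⟨g, rfl⟩
      have h4 : x = (XC X n).inc g * (((XC X n).inc g)⁻¹ * x) := by group
      rw [h4]
      exact Subgroup.mul_mem _ (Subgroup.mem_sup_right hgH) (Subgroup.mem_sup_left hz)
    · refine sup_le ?_ ?_
      · intro x hx
        rw [MonoidHom.mem_ker] at hx
        refine ⟨?_, ?_⟩
        · rw [hst]
          change fcE X n x ∈ X.stab C ψ
          rw [hx]
          exact (X.stab C ψ).one_mem
        · change prC A n ((XC X n).proj x) ∈ N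
          have hxa : X.proj (fcE X n x) = prC A n ((XC X n).proj x) := x.2
          rw [← hxa, hx, map_one]
          exact N.one_mem
      · intro x hx
        refine ⟨hx.1, ?_⟩
        change prC A n ((XC X n).proj x) ∈ N
        have h1 : (XC X n).proj x = 1 := hx.2
        rw [h1, map_one]
        exact N.one_mem
  have hθ : ext0 (XC X n).inc ψ ∈ IrrOn H := by
    rw [hH]
    exact (hBirr ψ).1 hψ
  have hdisj' : (fcE X n).ker ⊓ H = ⊥ := by
    rw [eq_bot_iff, ← hdisj]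
    exact inf_le_inf le_rfl inf_le_right
  have hSH : ∀ s ∈ S, ∀ y ∈ H, s⁻¹ * y * s ∈ H := by
    intro s hs y hy
    refine ⟨S.mul_mem (S.mul_mem (S.inv_mem hs) hy.1) hs, ?_⟩
    have h1 : (XC X n).proj y = 1 := hy.2
    change (XC X n).proj (s⁻¹ * y * s) = 1
    rw [map_mul, map_mul, h1, mul_one, map_inv, inv_mul_cancel]
  obtain ⟨hc1, hc2⟩ := ZCO_count hRDP hB2 (FC X n) p (fcE X n).ker H S hcenE hdisj' hSH
    (ext0 (XC X n).inc ψ) hθ hinv D
  -- orders
  have hcardH : Nat.card H = Nat.card (nrm C) := by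
    rw [hH]
    exact Nat.card_congr ((nrm C).equivMapOfInjective _ (XC X n).inc_injective).symm.toEquiv
  have hcardL : Nat.card ((fcE X n).ker ⊔ H : Subgroup (FC X n)) =
      Nat.card (nrm C) * Nat.card (Zn A n) := by
    rw [← hL, hECD (FC X n) (Cv A n) (XC X n).proj S (N.comap (prC A n))]
    have h1 : S.map (XC X n).proj ⊓ N.comap (prC A n) = (prC A n).ker := by
      rw [hstm, ← Subgroup.comap_inf, hVN]
      rfl
    rw [h1, hcard]
    change Nat.card H * _ = _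
    rw [hcardH]
  have hone : ext0 (XC X n).inc ψ 1 = ψ 1 := by
    have := (hB1 ψ).1 1
    rwa [map_one] at this
  have hDD : Defect p ((fcE X n).ker ⊔ H) (ext0 (XC X n).inc ψ) D ↔ Defect p (nrm C) ψ D := by
    unfold Defect
    rw [hone, hcardL]
    have h1 : padicValNat p (Nat.card (nrm C) * Nat.card (Zn A n)) = padicValNat p (Nat.card (nrm C)) := by
      rw [padicValNat.mul Nat.card_pos.ne' Nat.card_pos.ne', padicValNat.eq_zero_of_not_dvd hp, add_zero]
    rw [h1]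
  unfold relT
  change (Nat.card (S ⊓ (N.comap (prC A n)).comap (XC X n).proj : Subgroup (FC X n)) : ℤ) *
    inn p (S ⊓ (N.comap (prC A n)).comap (XC X n).proj) S H (ext0 (XC X n).inc ψ) D = _
  rw [hL, hcardL]
  by_cases hD : Defect p (nrm C) ψ D
  · rw [if_pos hD, hc1 (hDD.2 hD), hcardE]
    push_cast
    ring
  · rw [if_neg hD, hc2 (fun h => hD (hDD.1 h))]
    simp

end Pool.Agent.DR
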